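import Pool.Agent.Lib.MP_b5021c_nt.IfaceE6
import Pool.Agent.Lib.MP_b5021c_nt.E.H31.Zb5

/-!
# Board b5, stage 3, row E6_ALP: medium rays, the aligned load pays for the drop (`AlpS`)
-/

set_option autoImplicit false

namespace Pool.Agent.B5.H25.Alp.Alp

open Polynomial
open scoped LaurentPolynomial
open Pool.Agent.MP_b5021c_nt (Eis nz)
open Pool.Agent.MP_b5021c_nt.Ire (bc)
open Pool.Agent.B5.H25.Bch (bcR bc_co supp_bc classP_bc emb_comp)
open Pool.Agent.B5.H79 (f0_norm)
open Pool.Agent.B5.H31.Zb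

theorem tyB_mono25 {O : Type} [CommRing O] [Coef O] {a b : ℝ} (hab : a ≤ b) {Q F : RO O}
    {e : (RO O)ˣ} (h : TyB a Q F e) : TyB b Q F e := by
  obtain ⟨m, q, f, h1, h2, h3, h4, h5⟩ := h
  exact ⟨m, q, f, h1, h2, h3, h4, h5.trans hab⟩

/-- A port of a ray. -/
theorem port {P L : Type} [AddCommGroup L] (phi : L →+ (P → ℤ))
    {S : L} (hinj : Function.Injective phi) (hb : ∀ i, phi S i = 0 ∨ phi S i = 1) (h : S ≠ 0) :
    ∃ i, phi S i = 1 := by
  by_contra hc
  apply h
  apply hinj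
  rw [map_zero]
  funext i
  rcases hb i with h1 | h1
  · exact h1
  · exact absurd ⟨i, h1⟩ hc

theorem gp_mono {O : Type} [CommRing O] [Coef O] {θ t t' : ℝ} {Q F : RO O} {e : (RO O)ˣ}
    (h : Gp θ t Q F e) (ht : t ≤ t') : Gp θ t' Q F e := by
  obtain ⟨θ', h1, h2, h3⟩ := h
  exact ⟨θ', h1, h2.trans ht, h3⟩

/-- the lowest coefficient of a medium ray with `x < 99/50` -/
theorem tyB3 {θ : ℝ} {Q F : RO ℤ} {e : (RO ℤ)ˣ} {x : ℝ} {n : ℤ} {q f : ℤ[X]} {s r : ℂ[X]} {T c : ℂ}
    (hθ : 1000000 ≤ θ) (hMd : Md θ Q F e x n q f s r T c) (hx : x < 99 / 50) : TyB 3 Q F e := by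
  obtain ⟨hQ, hF, hd, hcT, hTi, hci, hx1, hx2⟩ := hMd
  have hθ0 : (0 : ℝ) < θ := by linarith
  have hcx : ‖c‖ = x := by
    have h1 := congrArg norm hcT
    rw [norm_mul, Complex.norm_conj, hd.nT, norm_mul, Complex.norm_real, Complex.norm_real,
      Real.norm_of_nonneg hθ0.le, Real.norm_of_nonneg (by linarith : (0 : ℝ) ≤ x)] at h1
    have h2 : θ * (‖c‖ - x) = 0 := by linarith
    rcases mul_eq_zero.mp h2 with h3 | h3
    · linarith
    · linarith
  obtain ⟨hs1, hf0n⟩ := f0_norm hd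
  rw [coeff_cast, emb_cast] at hf0n
  have hh0 : ‖r.eval 0 / s.eval 0‖ ≤ 1 := by
    rw [norm_div, hs1, div_one]
    have := hd.h0
    rw [hs1] at this
    exact this
  refine ⟨n, q, f, hQ, hF, ?_, ?_, ?_⟩
  · have h1 := hd.q0
    rw [coeff_cast, emb_cast] at h1
    exact h1
  · have h1 := hd.root
    rw [Polynomial.map_map, show (Eis.emb.comp (Int.castRingHom Eis)) = (Coef.emb : ℤ →+* ℂ) from
      emb_comp] at h1
    unfold nz
    rw [h1]
    rfl
  · change ‖((f.coeff 0 : ℤ) : ℂ)‖ ≤ 3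
    rw [hf0n]
    calc _ ≤ ‖c‖ + ‖r.eval 0 / s.eval 0‖ := norm_add_le _ _
      _ ≤ _ := by rw [hcx]; linarith

/-- a pair of adjacent loads over the Eisenstein integers -/
theorem pair (hPa : PaeS) (hBc : BcdS) {P L : Type} [Fintype P] [DecidableEq P] [AddCommGroup L]
    [Module.Free ℤ L] [Module.Finite ℤ L] {phi : L →+ (P → ℤ)} {D : AO ℤ L} {S : L} {θ E : ℝ}
    {e : (RO ℤ)ˣ} {g : ℕ} (hyp : HypR θ E) (hFP : FP phi D) (h4 : 4 ≤ Module.finrank ℤ L)
    (hP : ClassP θ (D.coeff 0)) (hR : Ray D S)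
    (hK : ∀ (i0 : P) (h : co phi i0 S = 1),
      Module.finrank ℤ L = rk (supp (cl (co phi i0) S h e D)) + 1 + g)
    (hfull : 1 ≤ g → ∀ e' : (RO Eis)ˣ, e' ≠ bcU e → ∀ (i0 : P) (h : co phi i0 S = 1),
      Module.finrank ℤ L = rk (supp (cl (co phi i0) S h e' (bc D))) + 1)
    {i0 : P} (h : co phi i0 S = 1)
    (h1 : Gp θ (θ - 988 / 1000) (bcR (D.coeff 0)) (bcR (D.coeff S)) (bcU e))
    {e₂ : (RO Eis)ˣ} (hA : Adj (bcU e) e₂)
    (hm : ‖mn ((e₂ : RO Eis) * bcR (D.coeff S)) (bcR (D.coeff 0))‖ ≤ 1 / 4)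
    (h2 : Gp θ (θ - 988 / 1000) (bcR (D.coeff 0)) (bcR (D.coeff S)) e₂) :
    (Module.finrank ℤ L : ℝ) ≤ 2 * (θ - 1 / θ) + E := by
  have hθ := hyp.big
  obtain ⟨b1, b2, b3, b4, b5, b6, b7, b8, b9, b10, b11⟩ := hBc P L phi D
  have hθpos : (0 : ℝ) < θ := by linarith
  have hne : e₂ ≠ bcU e := by
    intro h0
    obtain ⟨w, hw, hw1, hw2⟩ := hA
    rw [h0] at hw
    have h3 : (1 - LaurentPolynomial.C w) * ((bcU e : (RO Eis)ˣ) : RO Eis) = 0 := by
      rw [sub_mul, one_mul, ← hw, sub_self]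
    have h5 : (1 - LaurentPolynomial.C w : RO Eis) = 0 := by
      rcases mul_eq_zero.mp h3 with h6 | h6
      · exact h6
      · exact absurd h6 (Units.ne_zero _)
    have h6 : (LaurentPolynomial.C w : RO Eis) = LaurentPolynomial.C 1 := by
      rw [map_one]
      exact (sub_eq_zero.mp h5).symm
    have h7 : w = 1 := by
      have h8 : (AddMonoidAlgebra.single (0 : ℤ) w : RO Eis).coeff 0 =
          (AddMonoidAlgebra.single (0 : ℤ) (1 : Eis) : RO Eis).coeff 0 := by
        rw [LaurentPolynomial.single_eq_C, LaurentPolynomial.single_eq_C, h6]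
      rw [AddMonoidAlgebra.coeff_single, AddMonoidAlgebra.coeff_single, Finsupp.single_eq_same,
        Finsupp.single_eq_same] at h8
      exact h8
    rw [h7, map_one, Complex.one_re] at hw2
    norm_num at hw2
  have hrank : Module.finrank ℤ L = rk (supp (cl (co phi i0) S h (bcU e) (bc D))) + 1 ∨
      Module.finrank ℤ L = rk (supp (cl (co phi i0) S h e₂ (bc D))) + 1 := by
    rcases Nat.eq_zero_or_pos g with hg0 | hg0
    · left
      rw [b6, supp_bc]
      have := hK i0 h
      omega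
    · right
      exact hfull hg0 e₂ hne i0 h
  have hmain := hPa P L phi (bc D) S i0 h (bcU e) e₂ θ (b2 hFP (by omega)) h4 ((b1 S).mpr hR)
    (by linarith) (by rw [bc_co]; exact classP_bc hP) hA (by rw [bc_co, bc_co]; exact hm)
    (by rw [bc_co, bc_co]; exact h1) (by rw [bc_co, bc_co]; exact h2) hrank hyp.cx
  have hinv : 1 / θ ≤ 1 / 1000 := by
    rw [div_le_div_iff₀ hθpos (by norm_num)]
    linarith
  have hE := hyp.E0
  linarith

/-- Row E6_ALP. -/
theorem alp (hOne : One6S) (hZb : Zb5xS) (hPa : PaeS) (hBc : BcdS) (hNr : NrlS) : AlpS := by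
  intro P L _ _ _ _ _ phi D S θ E e g x n q f s r T c hyp hFP h4 hP hR hMd hK hg hgain hfull
  have hθ := hyp.big
  have hE := hyp.E0
  have hD := hFP.dd
  have hθpos : (0 : ℝ) < θ := by linarith
  obtain ⟨i0, hi0⟩ := port phi hD.inj (hD.bin S hR.1) hR.2.1
  have h : co phi i0 S = 1 := hi0
  obtain ⟨hz1, -, hz3, hz4⟩ := hZb θ _ _ e x n q f s r T c (by linarith) hMd
  rcases le_or_gt (99 / 50) x with hx | hx
  · obtain ⟨h1, e₂, hA, hm, h2⟩ := hz3 hx bcR rfl
    exact pair hPa hBc hyp hFP h4 hP hR hK hfull h h1 hA hm h2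
  · have hT3 := tyB3 (by linarith) hMd hx
    by_cases himp : (∀ z : Circle, ‖evR z (D.coeff 0 + (e : RO ℤ) * D.coeff S)‖ ≤
        ‖evR z (D.coeff 0)‖) → TyB 1 (D.coeff 0) (D.coeff S) e
    · -- the closing
      set t : ℝ := if g = 1 then θ - 1 - 9 / (1000 * θ) else θ - 97 / 100 with ht
      have hgp : Gp θ t (D.coeff 0) (D.coeff S) e := by
        rw [ht]
        split_ifs with h0
        · exact hgain h0
        · exact hz1
      obtain ⟨θ', hθ1, hθ2, hθ3, hc⟩ := hOne ℤ P L phi D S i0 e h θ t g hFP (by omega) hR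
        (by linarith) hP hgp (tyB_mono25 (by linarith) hT3) himp (hK i0 h)
      have ht97 : t ≤ θ - 97 / 100 := by
        rw [ht]
        split_ifs with h0
        · have : 0 ≤ 9 / (1000 * θ) := by positivity
          linarith
        · exact le_rfl
      have hinv : 1 / θ ≤ 1 / 1000 := by
        rw [div_le_div_iff₀ hθpos (by norm_num)]
        linarith
      have hg1 : (g : ℝ) ≤ 1 := by exact_mod_cast hg
      rcases hc with hc | hc | hc
      · linarith
      · rw [← one_div] at hc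
        linarith
      · have hθ'pos : 0 < θ' := by linarith
        have hbd := hyp.rl θ' hθ1 (by linarith)
        have hinv' : 1 / θ' ≤ 1 := by
          rw [div_le_one hθ'pos]
          exact hθ3.le
        have hlog : 0 ≤ Real.log (θ / θ') := by
          apply Real.log_nonneg
          rw [one_le_div hθ'pos]
          linarith
        have hfin := hc _ (by linarith) hbd
        obtain ⟨n1, n2, -⟩ := hNr θ E θ' (Module.finrank ℤ L : ℝ) (by linarith) hE hθ1
        rcases Nat.eq_zero_or_pos g with hg0 | hg0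
        · apply n1 (by linarith)
          rw [hg0] at hfin
          simpa using hfin
        · have hg2 : g = 1 := by omega
          have ht1 : t = θ - 1 - 9 / (1000 * θ) := by
            rw [ht, if_pos hg2]
          apply n2
          · rw [ht1] at hθ2
            have h5 : 1 / (150 * θ) ≤ 9 / (1000 * θ) := by
              rw [div_le_div_iff₀ (by positivity) (by positivity)]
              nlinarith
            linarith
          · rw [hg2] at hfin
            push_cast at hfin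
            linarith
    · -- the second alternative
      push Not at himp
      obtain ⟨hall, hno⟩ := himp
      rcases hz4 hall with h1 | h1
      · exact absurd h1 hno
      · obtain ⟨h1, e₂, hA, hm, h2⟩ := h1 bcR rfl
        exact pair hPa hBc hyp hFP h4 hP hR hK hfull h (gp_mono h1 (by linarith)) hA hm
          (gp_mono h2 (by linarith))

end Pool.Agent.B5.H25.Alp.Alp
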